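import Pool.Agent.Run7.h286.PL.StmA
import Pool.Agent.N539.PP.Cls

/-! Piece EXS of project PRL (helper286): the exact effect of one more prime. -/

set_option autoImplicit false
set_option linter.all false

open Polynomial IsDedekindDomain
open scoped Classical

namespace Run7.h957.PL

open Pool.Agent.N874.PP (Ov Ev Sq1)
open Pool.Agent.N352.PJ (IsGen Crd LocIm SelZero Fam GoodR Ht dsc)
open Run7.h875.TS (chi cd IsPC GSq irrD dg NRs uT sqf prD sqL sz Tr)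
open Run7.h784.TG Run7.h286.PL

/-! ### Orders modulo squares -/

section ord

variable {L : Type} [Field L]

theorem sz_mul {G H : Subgroup Lˣ} (hG : sqL L ≤ G) (h : G ≤ H) : sz H = sz G * G.relIndex H := by
  unfold sz
  exact (Subgroup.relIndex_mul_relIndex _ _ _ hG h).symm

theorem sz_le {G H : Subgroup Lˣ} (hG : sqL L ≤ G) (h : G ≤ H) (hH : sz H ≠ 0) : sz G ≤ sz H := by
  have h1 := sz_mul hG h
  rw [h1] at hH ⊢
  exact Nat.le_mul_of_pos_right _ (Nat.pos_of_ne_zero (right_ne_zero_of_mul hH))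

theorem two_sz_le {G H : Subgroup Lˣ} (hG : sqL L ≤ G) (h : G ≤ H) (hH : sz H ≠ 0)
    (hne : ¬ H ≤ G) : 2 * sz G ≤ sz H := by
  have h1 := sz_mul hG h
  rw [h1] at hH ⊢
  have h2 : G.relIndex H ≠ 0 := right_ne_zero_of_mul hH
  have h3 : G.relIndex H ≠ 1 := by
    rw [Ne, Subgroup.relIndex_eq_one]
    exact hne
  have h4 : 2 ≤ G.relIndex H := by omega
  rw [mul_comm]
  exact Nat.mul_le_mul_left _ h4

end ord

theorem even_sub_one {ι : Type} {A : Set ι} {i : ι} (hA : A ⊆ {i}) (he : Even A.ncard) :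
    A = ∅ := by
  rcases Set.subset_singleton_iff_eq.1 hA with h | h
  · exact h
  · rw [h, Set.ncard_singleton] at he
    exact absurd he (by decide)

section

variable {k K L O : Type} [Field k] [Finite k] [Field K] [Algebra k[X] K]
  [IsFractionRing k[X] K]
  [Field L] [Algebra K L] [Algebra k[X] L] [IsScalarTower k[X] K L] [CommRing O]
  [IsDedekindDomain O] [Algebra O L] [IsFractionRing O L] [Algebra k[X] O]
  [IsScalarTower k[X] O L] [IsIntegralClosure O k[X] L] {g N : ℕ} {r : k[X]} {f : k[X][X]} {θ : L}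

theorem goodT_insert {S : Finset k[X]} {u : k[X] → k[X]} (hu : GoodT g f S u) {Q w : k[X]}
    (hQm : Q.Monic) (hQi : Irreducible Q) (hQS : Q ∉ S) (hQd : ¬ Q ∣ dsc g f) (hw : ¬ Q ∣ w) :
    GoodT g f (insert Q S) (Function.update u Q w) := by
  refine ⟨?_, ?_, ?_, ?_⟩
  · intro P hP
    rcases Finset.mem_insert.1 hP with rfl | h
    · exact hQm
    · exact hu.mon P h
  · intro P hP
    rcases Finset.mem_insert.1 hP with rfl | h
    · exact hQi
    · exact hu.irr P h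
  · intro P hP
    rcases Finset.mem_insert.1 hP with rfl | h
    · exact hQd
    · exact hu.nd P h
  · intro P hP
    rcases Finset.mem_insert.1 hP with rfl | h
    · rw [Function.update_self]; exact hw
    · rw [Function.update_of_ne (by rintro rfl; exact hQS h)]
      exact hu.nu P h

/-- Trivial elements satisfy the condition at `Q`. -/
theorem locW_of_tr (hg : IsGen g K f θ) {Q D : k[X]} {α : L} (h : Tr O Q α) :
    LocW O f θ Q D α := by
  refine ⟨1, f, monic_one, hg.mon, by simp, by simp, ?_⟩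
  intro 𝔓 h𝔓
  constructor
  · intro h1
    rw [eval₂_one, map_one] at h1
    exact absurd h1 (lt_irrefl _)
  · intro _
    rw [eval₂_one, mul_one]
    exact h 𝔓 h𝔓

theorem selC_insert (hg : IsGen g K f θ) {S : Finset k[X]} {u : k[X] → k[X]} {Q w : k[X]}
    (hQS : Q ∉ S) {α : L} (h : SelC O K f θ S u α) (hT : Tr O Q α) :
    SelC O K f θ (insert Q S) (Function.update u Q w) α := by
  refine ⟨h.ne, h.nsq, ?_, ?_⟩
  · intro P hm hi hP
    exact h.ev P hm hi fun hPS => hP (Finset.mem_insert_of_mem hPS)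
  · intro P hP
    rcases Finset.mem_insert.1 hP with rfl | h'
    · exact locW_of_tr hg hT
    · rw [Function.update_of_ne (by rintro rfl; exact hQS h')]
      exact h.tw P h'

end

theorem T_EXS (hEXI : P_EXI) (hSTEP : P_STEP) (hBIL : P_BIL) (hADP : P_ADP) (hLOCQ : P_LOCQ)
    (hGRP : P_GRP) (hREP : P_REP) : P_EXS := by
  intro k K L O _ _ _ _ _ _ _ _ _ _ _ _ _ _ _ _ g N r f θ hF hFull hg S u hu Q hQm hQi hQS hQd
    w hw
  have hu' := goodT_insert hu hQm hQi hQS hQd hw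
  set G := SelG O K f θ S u with hG
  set G' := SelG O K f θ (insert Q S) (Function.update u Q w) with hG'
  obtain ⟨hGm, hGs⟩ := (hGRP k K L O g N r f θ hF hg).2 S u hu
  obtain ⟨hGm', hGs'⟩ := (hGRP k K L O g N r f θ hF hg).2 _ _ hu'
  have hszG : sz G ≠ 0 := (hREP k K L O g N r f θ hF hg).2 S u hu hGm
  have hszG' : sz G' ≠ 0 := (hREP k K L O g N r f θ hF hg).2 _ _ hu' hGm'
  obtain ⟨hnr, T, hT, hTs, hGT, hG1, hS1, hS2⟩ :=
    hSTEP k K L O g N r f θ hF hg S u hu hszG Q hQm hQi hQS hQd w hw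
  obtain ⟨hfin, hnon, -, hpar, -⟩ := hLOCQ k K L O g N r f θ hF hg Q hQm hQi hQd
  -- trivial elements of `G` are in `G'`
  have hGG' : ∀ α ∈ G, Tr O Q (α : L) → α ∈ G' := by
    intro α hα hTr
    exact (hGm' α).2 (selC_insert hg hQS ((hGm α).1 hα) hTr)
  have hinf : G ⊓ T ≤ G' := by
    intro α hα
    obtain ⟨h1, h2⟩ := Subgroup.mem_inf.1 hα
    exact hGG' α h1 ((hT α).1 h2)
  have hsinf : sqL L ≤ G ⊓ T := le_inf hGs hTs
  refine ⟨?_, ?_, ?_⟩
  · -- one prime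
    intro h1
    refine le_antisymm (hG1 h1) ?_
    intro α hα
    refine hGG' α hα ?_
    have hsel := (hGm α).1 hα
    have hev : ∀ 𝔓 : HeightOneSpectrum O, Ov Q 𝔓 → Ev 𝔓 (α : L) := hsel.ev Q hQm hQi hQS
    have hp := hpar (α : L) hsel.ne hsel.nsq hev
    obtain ⟨𝔓₀, h𝔓₀⟩ := Set.ncard_eq_one.1 h1
    have hemp := even_sub_one (A := {𝔓 : HeightOneSpectrum O | Ov Q 𝔓 ∧ ¬ Sq1 𝔓 (α : L)})
      (i := 𝔓₀) (by
        intro 𝔓 h
        rw [← h𝔓₀]
        exact h.1) hp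
    intro 𝔓 h𝔓
    by_contra hns
    have : 𝔓 ∈ {𝔓 : HeightOneSpectrum O | Ov Q 𝔓 ∧ ¬ Sq1 𝔓 (α : L)} := ⟨h𝔓, hns⟩
    rw [hemp] at this
    exact this
  · -- two primes, everything trivial
    intro h2 hall
    have hGG : G ≤ G' := fun α hα => hGG' α hα (hall α hα)
    have hGT' : G ⊓ T = G := inf_eq_left.2 fun α hα => (hT α).2 (hall α hα)
    rw [h2, hGT'] at hS2
    have hle : sz G' ≤ 2 * sz G := by
      have h3 : sz G' * sz G ≤ (2 * sz G) * sz G := by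
        calc _ ≤ _ := hS2
          _ = _ := by ring
      exact Nat.le_of_mul_le_mul_right h3 (Nat.pos_of_ne_zero hszG)
    refine le_antisymm hle ?_
    refine two_sz_le hGs hGG hszG' ?_
    intro hcon
    -- an element outside
    obtain ⟨T', M, hT', hM, hMs, hszM, hM2⟩ :=
      hEXI k K L O g N r f θ hF hFull hg S u hu Q hQm hQi hQS hQd
    have hT'G : G ⊓ T' = G := inf_eq_left.2 fun α hα => (hT' α).2 (hall α hα)
    rw [h2, hT'G] at hM2
    obtain ⟨x, hxM, hxG⟩ : ∃ x ∈ M, x ∉ G := by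
      by_contra hc
      push Not at hc
      have := sz_le hMs (show M ≤ G from hc) hszG
      have hp := Nat.pos_of_ne_zero hszG
      simp only [Nat.add_one_sub_one, pow_one] at hM2
      omega
    obtain ⟨hxR, hxW⟩ := (hM x).1 hxM
    obtain ⟨hA1, hA2, -, hA4, c, hc, hA5⟩ := hADP k K L O g N r f θ hF hg Q hQm hQi hQd w hw
    -- the primes over `Q`
    obtain ⟨𝔓₁, 𝔓₂, h12, hset⟩ := Set.ncard_eq_two.1 h2
    -- odd somewhere
    have hodd : ∃ 𝔓 : HeightOneSpectrum O, Ov Q 𝔓 ∧ ¬ Ev 𝔓 (x : L) := by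
      by_contra hcc
      push Not at hcc
      apply hxG
      refine (hGm x).2 ⟨hxR.ne, hxR.nsq, ?_, hxW⟩
      intro P hm hi hP
      by_cases hPQ : P = Q
      · rw [hPQ]; exact hcc
      · exact hxR.ev P hm hi fun h => (Finset.mem_insert.1 h).elim hPQ hP
    -- not odd everywhere
    have heven : ∃ 𝔓 : HeightOneSpectrum O, Ov Q 𝔓 ∧ Ev 𝔓 (x : L) := by
      by_contra hcc
      push Not at hcc
      have h5 := hA5 x hxR.ne hxR.nsq
      have e : {𝔓 : HeightOneSpectrum O | Ov Q 𝔓 ∧ ¬ Ev 𝔓 (x : L)} =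
          {𝔓 : HeightOneSpectrum O | Ov Q 𝔓} := by
        ext 𝔓
        exact ⟨fun h => h.1, fun h => ⟨h, hcc 𝔓 h⟩⟩
      rw [e, hc] at h5
      exact (Nat.not_even_iff_odd.2 ⟨g, rfl⟩) h5
    obtain ⟨𝔔, h𝔔, h𝔔o⟩ := hodd
    obtain ⟨𝔔', h𝔔', h𝔔e⟩ := heven
    have hne : 𝔔 ≠ 𝔔' := by
      rintro rfl
      exact h𝔔o h𝔔e
    have htwo : ∀ 𝔓 : HeightOneSpectrum O, Ov Q 𝔓 → 𝔓 = 𝔔 ∨ 𝔓 = 𝔔' := by
      intro 𝔓 h𝔓
      have m1 : 𝔓 ∈ ({𝔓₁, 𝔓₂} : Set (HeightOneSpectrum O)) := by rw [← hset]; exact h𝔓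
      have m2 : 𝔔 ∈ ({𝔓₁, 𝔓₂} : Set (HeightOneSpectrum O)) := by rw [← hset]; exact h𝔔
      have m3 : 𝔔' ∈ ({𝔓₁, 𝔓₂} : Set (HeightOneSpectrum O)) := by rw [← hset]; exact h𝔔'
      simp only [Set.mem_insert_iff, Set.mem_singleton_iff] at m1 m2 m3
      rcases m1 with rfl | rfl <;> rcases m2 with rfl | rfl <;> rcases m3 with rfl | rfl <;> simp_all
    -- adapted factorisations
    have hab : ∀ P ∈ insert Q S, ∃ ab : k[X][X] × k[X][X], Adp O f θ P (x : L) ab.1 ab.2 ∧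
        (P ∈ S → ∀ 𝔓 : HeightOneSpectrum O, Ov P 𝔓 →
          Sq1 𝔓 ((x : L) * cls θ (P * u P) 𝔓 ab.1 ab.2)) := by
      intro P hP
      rcases Finset.mem_insert.1 hP with rfl | hPS
      · obtain ⟨a, b, hab⟩ := hA1 x hxR.ne hxR.nsq
        exact ⟨(a, b), hab, fun h => absurd h hQS⟩
      · obtain ⟨-, -, -, hB4, -⟩ := hADP k K L O g N r f θ hF hg P (hu.mon P hPS) (hu.irr P hPS)
          (hu.nd P hPS) (u P) (hu.nu P hPS)
        obtain ⟨a, b, hab, hsq⟩ := (hB4 x hxR.ne).1 (hxW P hPS)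
        exact ⟨(a, b), hab, fun _ => hsq⟩
    choose! ab hab1 hab2 using hab
    have hbil := (hBIL k K L O g N r f θ hF hg (insert Q S) (Function.update u Q w) hu' (x : L)
      (fun P => (ab P).1) (fun P => (ab P).2) hxR hab1).1
    rw [Finset.sum_insert hQS] at hbil
    have hzero : ∑ P ∈ S, {𝔓 : HeightOneSpectrum O | Ov P 𝔓 ∧ ¬ Ev 𝔓 (x : L) ∧
        ¬ Sq1 𝔓 ((x : L) * cls θ (P * Function.update u Q w P) 𝔓 (ab P).1 (ab P).2)}.ncard = 0 := by
      refine Finset.sum_eq_zero fun P hPS => ?_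
      have hPQ : P ≠ Q := by rintro rfl; exact hQS hPS
      rw [Function.update_of_ne hPQ]
      have : {𝔓 : HeightOneSpectrum O | Ov P 𝔓 ∧ ¬ Ev 𝔓 (x : L) ∧
        ¬ Sq1 𝔓 ((x : L) * cls θ (P * u P) 𝔓 (ab P).1 (ab P).2)} = ∅ := by
        ext 𝔓
        simp only [Set.mem_setOf_eq, Set.mem_empty_iff_false, iff_false]
        rintro ⟨h1, -, h3⟩
        exact h3 (hab2 P (Finset.mem_insert_of_mem hPS) hPS 𝔓 h1)
      rw [this, Set.ncard_empty]
    rw [hzero, add_zero, Function.update_self] at hbil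
    have hadQ := hab1 Q (Finset.mem_insert_self _ _)
    have he1 := even_sub_one (A := {𝔓 : HeightOneSpectrum O | Ov Q 𝔓 ∧ ¬ Ev 𝔓 (x : L) ∧
        ¬ Sq1 𝔓 ((x : L) * cls θ (Q * w) 𝔓 (ab Q).1 (ab Q).2)}) (i := 𝔔) (by
      rintro 𝔓 ⟨h1, h3, -⟩
      rcases htwo 𝔓 h1 with rfl | rfl
      · rfl
      · exact absurd h𝔔e h3) hbil
    have hs1 : Sq1 𝔔 ((x : L) * cls θ (Q * w) 𝔔 (ab Q).1 (ab Q).2) := by
      by_contra hns
      have : 𝔔 ∈ {𝔓 : HeightOneSpectrum O | Ov Q 𝔓 ∧ ¬ Ev 𝔓 (x : L) ∧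
        ¬ Sq1 𝔓 ((x : L) * cls θ (Q * w) 𝔓 (ab Q).1 (ab Q).2)} := ⟨h𝔔, h𝔔o, hns⟩
      rw [he1] at this
      exact this
    have he2 := even_sub_one (A := {𝔓 : HeightOneSpectrum O | Ov Q 𝔓 ∧
        ¬ Sq1 𝔓 ((x : L) * cls θ (Q * w) 𝔓 (ab Q).1 (ab Q).2)}) (i := 𝔔') (by
      rintro 𝔓 ⟨h1, h3⟩
      rcases htwo 𝔓 h1 with rfl | rfl
      · exact absurd hs1 h3
      · rfl) (hA2 x _ _ hxR.ne hxR.nsq hadQ).2
    have hsall : ∀ 𝔓 : HeightOneSpectrum O, Ov Q 𝔓 →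
        Sq1 𝔓 ((x : L) * cls θ (Q * w) 𝔓 (ab Q).1 (ab Q).2) := by
      intro 𝔓 h𝔓
      by_contra hns
      have : 𝔓 ∈ {𝔓 : HeightOneSpectrum O | Ov Q 𝔓 ∧
        ¬ Sq1 𝔓 ((x : L) * cls θ (Q * w) 𝔓 (ab Q).1 (ab Q).2)} := ⟨h𝔓, hns⟩
      rw [he2] at this
      exact this
    have hxG' : x ∈ G' := by
      refine (hGm' x).2 ⟨hxR.ne, hxR.nsq, hxR.ev, ?_⟩
      intro P hP
      rcases Finset.mem_insert.1 hP with rfl | hPS
      · rw [Function.update_self]
        exact (hA4 x hxR.ne).2 ⟨_, _, hadQ, hsall⟩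
      · rw [Function.update_of_ne (by rintro rfl; exact hQS hPS)]
        exact hxW P hPS
    exact hxG (hcon hxG')
  · -- two primes, not everything trivial
    intro h2 hnall
    rw [h2] at hS1 hS2
    simp only [Nat.add_one_sub_one, pow_one] at hS1 hS2
    have hnle : ¬ G ≤ G ⊓ T := by
      intro hc
      apply hnall
      intro α hα
      exact (hT α).1 (Subgroup.mem_inf.1 (hc hα)).2
    have h3 := two_sz_le hsinf inf_le_left hszG hnle
    have h4 : sz G = 2 * sz (G ⊓ T) := le_antisymm hS1 h3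
    have h5 := sz_le hsinf hinf hszG'
    have h6 : sz G' ≤ sz (G ⊓ T) := by
      rw [h4] at hS2
      have hpos : 0 < 2 * sz (G ⊓ T) := by
        rw [← h4]; exact Nat.pos_of_ne_zero hszG
      refine Nat.le_of_mul_le_mul_right (c := 2 * sz (G ⊓ T)) ?_ hpos
      calc _ ≤ _ := hS2
        _ = _ := by ring
    rw [h4, le_antisymm h6 h5]

end Run7.h957.PL
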