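import Pool.Agent.Run7.h957.PL.AuxP
import Pool.Agent.Run7.h957.PL.EXS

/-! Piece S1 of project PRL (helper286): one step of the Markov chain. -/

set_option autoImplicit false
set_option linter.all false

open Polynomial IsDedekindDomain
open scoped Classical

namespace Run7.h957.PL

open Pool.Agent.N874.PP (Ov Ev Sq1)
open Pool.Agent.N352.PJ (IsGen Crd LocIm SelZero Fam GoodR Ht dsc)
open Run7.h875.TS (chi cd IsPC GSq irrD dg NRs uT sqf prD sqL sz Tr)
open Run7.h784.TG Run7.h286.PL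

/-! ### Characters of the classes -/

section ord

variable {L : Type} [Field L]

theorem mem_sqL {α : Lˣ} : α ∈ sqL L ↔ IsSquare (α : L) := by
  constructor
  · rintro ⟨β, rfl⟩
    exact ⟨(β : L), by simp [sq]⟩
  · rintro ⟨y, hy⟩
    have hy0 : y ≠ 0 := by
      rintro rfl
      exact α.ne_zero (by simpa using hy)
    refine ⟨Units.mk0 y hy0, Units.ext ?_⟩
    simp [hy, sq]

/-- The classes modulo squares. -/
abbrev Cl (G : Subgroup Lˣ) : Type := G ⧸ (sqL L).subgroupOf G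

theorem fin_cl {G : Subgroup Lˣ} (h : sz G ≠ 0) : Finite (Cl G) := by
  have : ((sqL L).subgroupOf G).FiniteIndex := ⟨h⟩
  exact Subgroup.finite_quotient_of_finiteIndex

theorem card_cl (G : Subgroup Lˣ) : Nat.card (Cl G) = sz G := rfl

/-- A representative. -/
noncomputable def rp {G : Subgroup Lˣ} (i : Cl G) : Lˣ := ((Quotient.out i : G) : Lˣ)

theorem rp_mem {G : Subgroup Lˣ} (i : Cl G) : rp i ∈ G := (Quotient.out i : G).2

theorem rp_sq {G : Subgroup Lˣ} (i : Cl G) : rp i ∈ sqL L ↔ i = 1 := by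
  have h := QuotientGroup.eq_one_iff (N := (sqL L).subgroupOf G) (Quotient.out i : G)
  rw [QuotientGroup.out_eq'] at h
  rw [h, Subgroup.mem_subgroupOf]
  rfl

theorem rp_mul {G T : Subgroup Lˣ} (hT : sqL L ≤ T) (i j : Cl G) :
    rp (i * j) ∈ T ↔ rp i * rp j ∈ T := by
  have h1 : ((Quotient.out i : G) * (Quotient.out j : G))⁻¹ * (Quotient.out (i * j) : G) ∈
      (sqL L).subgroupOf G := by
    rw [← QuotientGroup.eq, QuotientGroup.mk_mul, QuotientGroup.out_eq', QuotientGroup.out_eq',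
      QuotientGroup.out_eq']
  rw [Subgroup.mem_subgroupOf] at h1
  have h2 : (rp i * rp j)⁻¹ * rp (i * j) ∈ T := hT h1
  constructor
  · intro h
    have := T.mul_mem h (T.inv_mem h2)
    rwa [mul_inv_rev, inv_inv, mul_inv_cancel_left] at this
  · intro h
    have := T.mul_mem h h2
    rwa [mul_inv_cancel_left] at this

theorem char_sum {G T : Subgroup Lˣ} (hs : sqL L ≤ G) (hsT : sqL L ≤ T) (h0 : sz G ≠ 0)
    (h2 : sz G ≤ 2 * sz (G ⊓ T)) [Fintype (Cl G)] :
    ∑ i : Cl G, (if rp i ∈ T then (1 : ℝ) else -1) = if G ≤ T then (sz G : ℝ) else 0 := by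
  split_ifs with hle
  · rw [Finset.sum_congr rfl fun i _ => if_pos (hle (rp_mem i))]
    simp [← card_cl, Nat.card_eq_fintype_card]
  · -- the index of `G ⊓ T` in `G` is two
    have hsinf : sqL L ≤ G ⊓ T := le_inf hs hsT
    have hnle : ¬ G ≤ G ⊓ T := fun h => hle fun x hx => (Subgroup.mem_inf.1 (h hx)).2
    have h3 := two_sz_le hsinf inf_le_left h0 hnle
    have h4 : sz G = 2 * sz (G ⊓ T) := le_antisymm h2 h3
    have h5 := sz_mul hsinf (inf_le_left : G ⊓ T ≤ G)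
    have hp : 0 < sz (G ⊓ T) := by
      rw [h4] at h0
      exact Nat.pos_of_ne_zero (right_ne_zero_of_mul h0)
    have h6 : (G ⊓ T).relIndex G = 2 := by
      rw [h4, mul_comm] at h5
      exact (Nat.eq_of_mul_eq_mul_left hp h5).symm
    have h7 : ∀ a b : Lˣ, a ∈ G → b ∈ G → (a * b ∈ T ↔ (a ∈ T ↔ b ∈ T)) := by
      intro a b ha hb
      have h8 := Subgroup.mul_mem_iff_of_index_two (H := (G ⊓ T).subgroupOf G) h6
        (a := (⟨a, ha⟩ : G)) (b := (⟨b, hb⟩ : G))
      simp only [Subgroup.mem_subgroupOf, Subgroup.coe_mul, Subgroup.mem_inf] at h8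
      have hab := G.mul_mem ha hb
      tauto
    obtain ⟨i₀, hi₀⟩ : ∃ i₀ : Cl G, rp i₀ ∉ T := by
      by_contra hc
      push Not at hc
      apply hle
      intro x hx
      have h9 : (QuotientGroup.mk (⟨x, hx⟩ : G) : Cl G) = QuotientGroup.mk
          (Quotient.out (QuotientGroup.mk (⟨x, hx⟩ : G) : Cl G)) :=
        (QuotientGroup.out_eq' _).symm
      rw [QuotientGroup.eq, Subgroup.mem_subgroupOf] at h9
      have h10 := T.mul_mem (T.inv_mem (hsT h9)) (T.one_mem)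
      have h11 := hc (QuotientGroup.mk (⟨x, hx⟩ : G) : Cl G)
      have h12 : x⁻¹ * rp (QuotientGroup.mk (⟨x, hx⟩ : G) : Cl G) ∈ T := hsT h9
      have h13 := T.mul_mem h11 (T.inv_mem h12)
      rwa [mul_inv_rev, inv_inv, mul_inv_cancel_left] at h13
    set χ : Cl G → ℝ := fun i => if rp i ∈ T then (1 : ℝ) else -1 with hχ
    have hflip : ∀ i, χ (i₀ * i) = - χ i := by
      intro i
      have h8 : rp (i₀ * i) ∈ T ↔ (rp i₀ ∈ T ↔ rp i ∈ T) :=
        (rp_mul hsT i₀ i).trans (h7 _ _ (rp_mem _) (rp_mem _))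
      by_cases hi : rp i ∈ T
      · have h9 : rp (i₀ * i) ∉ T := by rw [h8]; tauto
        simp only [hχ, if_pos hi, if_neg h9]
      · have h9 : rp (i₀ * i) ∈ T := by rw [h8]; tauto
        simp only [hχ, if_neg hi, if_pos h9, neg_neg]
    have h14 : ∑ i, χ (i₀ * i) = ∑ i, χ i := Fintype.sum_equiv (Equiv.mulLeft i₀) _ _ fun _ => rfl
    simp only [hflip, Finset.sum_neg_distrib] at h14
    show ∑ i, χ i = 0
    linarith

end ord

/-! ### Counting -/

theorem card_remove {k : Type} [Field k] [Finite k] {m : ℕ} (hm : 0 < m) (S A : Finset k[X])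
    (hA : A ⊆ irrD k m) : |((A.filter (fun Q => Q ∉ S)).card : ℝ) - A.card| ≤ dg S := by
  have h1 := Finset.card_filter_add_card_filter_not (s := A) (fun Q => Q ∈ S)
  have h2 : (A.filter fun Q => Q ∈ S).card ≤ dg S := by
    calc (A.filter fun Q => Q ∈ S).card = ∑ P ∈ A.filter (fun Q => Q ∈ S), 1 := by simp
      _ ≤ ∑ P ∈ A.filter (fun Q => Q ∈ S), P.natDegree := by
          refine Finset.sum_le_sum fun P hP => ?_
          have := (mem_irrD.1 (hA (Finset.mem_filter.1 hP).1)).2.2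
          omega
      _ ≤ ∑ P ∈ S, P.natDegree := by
          refine Finset.sum_le_sum_of_subset fun P hP => (Finset.mem_filter.1 hP).2
      _ = dg S := rfl
  have h3 : (((A.filter fun Q => Q ∈ S).card : ℕ) : ℝ) + ((A.filter fun Q => Q ∉ S).card : ℕ) =
      A.card := by exact_mod_cast h1
  have h4 : (((A.filter fun Q => Q ∈ S).card : ℕ) : ℝ) ≤ dg S := by exact_mod_cast h2
  rw [abs_le]
  constructor
  · linarith
  · have : (0 : ℝ) ≤ ((A.filter fun Q => Q ∈ S).card : ℕ) := by positivity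
    have h5 : (0 : ℝ) ≤ dg S := by positivity
    linarith


theorem tr_mul_sq {k L O : Type} [Field k] [Field L] [Algebra k[X] L] [CommRing O]
    [IsDedekindDomain O] [Algebra O L] [IsFractionRing O L] [Algebra k[X] O] {Q : k[X]} {α ρ : L}
    (hρ : ρ ≠ 0) : Tr O Q (α * ρ ^ 2) ↔ Tr O Q α := by
  unfold Tr
  constructor
  · intro h 𝔓 h𝔓
    exact (Pool.Agent.N539.PP.sq1_mul_sq _ hρ).1 (h 𝔓 h𝔓)
  · intro h 𝔓 h𝔓
    exact (Pool.Agent.N539.PP.sq1_mul_sq _ hρ).2 (h 𝔓 h𝔓)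

/-- The number of the primes at which the whole group is trivial. -/
theorem count_triv (hKILL : P_KILL2) (hSTEP : P_STEP) (hREP : P_REP) (hGRP : P_GRP)
    (k K L O : Type) [Field k] [Finite k] [Field K] [Algebra k[X] K]
    [IsFractionRing k[X] K]
    [Field L] [Algebra K L] [Algebra k[X] L] [IsScalarTower k[X] K L] [CommRing O]
    [IsDedekindDomain O] [Algebra O L] [IsFractionRing O L] [Algebra k[X] O]
    [IsScalarTower k[X] O L] [IsIntegralClosure O k[X] L] (g N : ℕ) (r : k[X]) (f : k[X][X])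
    (θ : L) (hF : Fm g N r f) (hFull : Full f) (hg : IsGen g K f θ) :
    ∃ C : ℕ, ∀ (S : Finset k[X]) (u : k[X] → k[X]), GoodT g f S u → ∀ m : ℕ, 0 < m →
      |(((irrD k m).filter fun Q => (¬ Q ∣ dsc g f ∧ nr O Q = 2) ∧ Q ∉ S).card : ℝ) -
        del1 g * (Nat.card k : ℝ) ^ m / m| ≤ C * (1 + dg S) * √((Nat.card k : ℝ) ^ m) ∧
      |(((irrD k m).filter fun Q => ((¬ Q ∣ dsc g f ∧ nr O Q = 2) ∧ Q ∉ S) ∧
          ∀ α ∈ SelG O K f θ S u, Tr O Q (α : L)).card : ℝ) -
        del1 g * (Nat.card k : ℝ) ^ m / m * (1 / (sz (SelG O K f θ S u) : ℝ))| ≤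
          C * (1 + dg S) * √((Nat.card k : ℝ) ^ m) := by
  obtain ⟨C₀, hC₀⟩ := hKILL k g N r f hF hFull
  obtain ⟨⟨C₁, hC₁⟩, hfin⟩ := hREP k K L O g N r f θ hF hg
  refine ⟨3 * (C₀ * (1 + C₁) + 1), ?_⟩
  intro S u hu m hm
  set B : ℝ := √((Nat.card k : ℝ) ^ m) with hB
  set M : ℝ := del1 g * (Nat.card k : ℝ) ^ m / m with hM
  have hq : (1 : ℝ) ≤ Nat.card k := by
    have : 1 < Nat.card k := Finite.one_lt_card
    exact_mod_cast this.le
  have hB1 : 1 ≤ B := by
    rw [hB, Real.one_le_sqrt]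
    exact one_le_pow₀ hq
  have hdg : (0 : ℝ) ≤ dg S := by positivity
  set E : ℝ := (C₀ * (1 + C₁) + 1) * (1 + dg S) * B with hE
  have hE0 : 0 ≤ E := by positivity
  have hCE : ((3 * (C₀ * (1 + C₁) + 1) : ℕ) : ℝ) * (1 + dg S) * B = 3 * E := by
    rw [hE]; push_cast; ring
  rw [hCE]
  obtain ⟨hK1, hK2⟩ := hC₀ K L O θ hg
  set 𝒬 := (irrD k m).filter fun Q => (¬ Q ∣ dsc g f ∧ nr O Q = 2) ∧ Q ∉ S with h𝒬
  have hdgB : (dg S : ℝ) ≤ (1 + dg S) * B := by nlinarith
  -- the number of all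
  have hcount : |(𝒬.card : ℝ) - M| ≤ E := by
    have h1 := hK1 m hm
    have h2 := card_remove hm S ((irrD k m).filter fun Q => ¬ Q ∣ dsc g f ∧ nr O Q = 2)
      (Finset.filter_subset _ _)
    rw [Finset.filter_filter] at h2
    have h3 : |(𝒬.card : ℝ) - M| ≤ dg S + C₀ * B := by
      calc |(𝒬.card : ℝ) - M| ≤ |(𝒬.card : ℝ) -
            ((irrD k m).filter fun Q => ¬ Q ∣ dsc g f ∧ nr O Q = 2).card| +
            |(((irrD k m).filter fun Q => ¬ Q ∣ dsc g f ∧ nr O Q = 2).card : ℝ) - M| :=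
              abs_sub_le _ _ _
        _ ≤ dg S + C₀ * B := add_le_add h2 h1
    refine h3.trans ?_
    rw [hE]
    have h4 : (C₀ : ℝ) * B ≤ (C₀ * (1 + C₁)) * (1 + dg S) * B := by
      refine mul_le_mul_of_nonneg_right ?_ (by positivity)
      have a1 : (C₀ : ℝ) ≤ C₀ * (1 + C₁) := le_mul_of_one_le_right (by positivity) (by
        have : (0 : ℝ) ≤ C₁ := by positivity
        linarith)
      exact a1.trans (le_mul_of_one_le_right (by positivity) (by linarith))
    linarith [h4, hdgB]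
  refine ⟨hcount.trans (by linarith), ?_⟩
  -- the group
  set G := SelG O K f θ S u with hG
  obtain ⟨hGm, hGs⟩ := (hGRP k K L O g N r f θ hF hg).2 S u hu
  have hsz : sz G ≠ 0 := hfin S u hu hGm
  have := fin_cl hsz
  letI : Fintype (Cl G) := Fintype.ofFinite _
  set s : ℝ := (sz G : ℝ) with hs
  have hs0 : 0 < s := by
    rw [hs]; exact_mod_cast Nat.pos_of_ne_zero hsz
  have hcard : (Fintype.card (Cl G) : ℝ) = s := by
    rw [hs, ← card_cl, Nat.card_eq_fintype_card]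
  set 𝒜 := (irrD k m).filter fun Q => ((¬ Q ∣ dsc g f ∧ nr O Q = 2) ∧ Q ∉ S) ∧
          ∀ α ∈ G, Tr O Q (α : L) with h𝒜
  have h𝒜𝒬 : 𝒜 = 𝒬.filter fun Q => ∀ α ∈ G, Tr O Q (α : L) := by
    rw [h𝒜, h𝒬, Finset.filter_filter]
  -- the double sum
  set χ : k[X] → Cl G → ℝ := fun Q i => if Tr O Q ((rp i : Lˣ) : L) then (1 : ℝ) else -1 with hχ
  have hrow : ∀ Q ∈ 𝒬, ∑ i, χ Q i = if (∀ α ∈ G, Tr O Q (α : L)) then s else 0 := by
    intro Q hQ
    rw [h𝒬, Finset.mem_filter, mem_irrD] at hQ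
    obtain ⟨⟨hQm, hQi, -⟩, ⟨hQd, hQn⟩, hQS⟩ := hQ
    obtain ⟨-, T, hT, hTs, -, -, hS1, -⟩ := hSTEP k K L O g N r f θ hF hg S u hu hsz Q hQm hQi hQS
      hQd 1 (fun h => hQi.not_isUnit (isUnit_of_dvd_one h))
    rw [hQn] at hS1
    have h1 := char_sum hGs hTs hsz (by simpa using hS1)
    have e1 : ∀ i : Cl G, χ Q i = if rp i ∈ T then (1 : ℝ) else -1 := by
      intro i
      simp only [hχ, hT]
    rw [Finset.sum_congr rfl fun i _ => e1 i, h1]
    have e2 : G ≤ T ↔ ∀ α ∈ G, Tr O Q (α : L) :=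
      ⟨fun h α hα => (hT α).1 (h hα), fun h α hα => (hT α).2 (h α hα)⟩
    by_cases hall : ∀ α ∈ G, Tr O Q (α : L)
    · rw [if_pos (e2.2 hall), if_pos hall]
    · rw [if_neg (fun h => hall (e2.1 h)), if_neg hall]
  have htot1 : ∑ Q ∈ 𝒬, ∑ i, χ Q i = s * 𝒜.card := by
    rw [Finset.sum_congr rfl hrow, ← Finset.sum_filter, ← h𝒜𝒬, Finset.sum_const, nsmul_eq_mul,
      mul_comm]
  have hcol : ∀ i : Cl G, |∑ Q ∈ 𝒬, χ Q i - (if i = 1 then M else 0)| ≤ 3 * E := by
    intro i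
    have hsum : ∑ Q ∈ 𝒬, χ Q i = 𝒬.card - 2 * ((𝒬.filter fun Q => ¬ Tr O Q
        ((rp i : Lˣ) : L)).card : ℝ) := by
      have h1 := Finset.card_filter_add_card_filter_not (s := 𝒬)
        (fun Q => Tr O Q ((rp i : Lˣ) : L))
      have h2 : (((𝒬.filter fun Q => Tr O Q ((rp i : Lˣ) : L)).card : ℕ) : ℝ) +
        ((𝒬.filter fun Q => ¬ Tr O Q ((rp i : Lˣ) : L)).card : ℕ) = 𝒬.card := by exact_mod_cast h1
      have h3 : ∑ Q ∈ 𝒬, χ Q i = ((𝒬.filter fun Q => Tr O Q ((rp i : Lˣ) : L)).card : ℝ) -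
          ((𝒬.filter fun Q => ¬ Tr O Q ((rp i : Lˣ) : L)).card : ℝ) := by
        simp only [hχ]
        rw [Finset.sum_ite, Finset.sum_const, Finset.sum_const, nsmul_eq_mul, nsmul_eq_mul]
        ring
      rw [h3]; linarith
    have hsel := (hGm (rp i)).1 (rp_mem i)
    split_ifs with hi
    · -- squares are trivial
      have hsq := mem_sqL.1 ((rp_sq i).2 hi)
      have hemp : (𝒬.filter fun Q => ¬ Tr O Q ((rp i : Lˣ) : L)) = ∅ := by
        rw [Finset.filter_eq_empty_iff]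
        intro Q _ hn
        apply hn
        obtain ⟨y, hy⟩ := hsq
        have hy0 : y ≠ 0 := by
          rintro rfl
          exact hsel.ne (by simpa using hy)
        intro 𝔓 _
        rw [hy, ← sq]
        exact Pool.Agent.N539.PP.sq1_sq _ hy0
      rw [hsum, hemp, Finset.card_empty, Nat.cast_zero, mul_zero, sub_zero]
      linarith
    · have hnsq : ¬ IsSquare ((rp i : Lˣ) : L) := fun h => hi ((rp_sq i).1 (mem_sqL.2 h))
      obtain ⟨ρ, z, hρ, hz, hdeg⟩ := hC₁ S u hu _ hsel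
      have h0 : ((rp i : Lˣ) : L) * ρ ^ 2 ≠ 0 := mul_ne_zero hsel.ne (pow_ne_zero _ hρ)
      have h1 : IsSquare (Algebra.norm K (((rp i : Lˣ) : L) * ρ ^ 2)) := by
        rw [map_mul, map_pow]
        exact hsel.nsq.mul ⟨Algebra.norm K ρ, sq _⟩
      have h2 : ¬ IsSquare (((rp i : Lˣ) : L) * ρ ^ 2) := by
        rintro ⟨y, hy⟩
        apply hnsq
        refine ⟨y / ρ, ?_⟩
        field_simp
        rw [hy, sq]
      have h3 := hK2 _ z (C₁ * (1 + dg S)) h0 h1 h2 hz hdeg m hm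
      simp only [tr_mul_sq hρ] at h3
      have h4 := card_remove hm S ((irrD k m).filter fun Q => ¬ Q ∣ dsc g f ∧ nr O Q = 2 ∧
        ¬ Tr O Q ((rp i : Lˣ) : L)) (Finset.filter_subset _ _)
      have e1 : (((irrD k m).filter fun Q => ¬ Q ∣ dsc g f ∧ nr O Q = 2 ∧
          ¬ Tr O Q ((rp i : Lˣ) : L)).filter fun Q => Q ∉ S) =
          𝒬.filter fun Q => ¬ Tr O Q ((rp i : Lˣ) : L) := by
        rw [h𝒬, Finset.filter_filter, Finset.filter_filter]
        congr 1
        ext Q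
        tauto
      rw [e1] at h4
      have h5 : |((𝒬.filter fun Q => ¬ Tr O Q ((rp i : Lˣ) : L)).card : ℝ) - M / 2| ≤ E := by
        have hM2 : M / 2 = del1 g / 2 * (Nat.card k : ℝ) ^ m / m := by rw [hM]; ring
        rw [hM2]
        have h6 : |((𝒬.filter fun Q => ¬ Tr O Q ((rp i : Lˣ) : L)).card : ℝ) -
            del1 g / 2 * (Nat.card k : ℝ) ^ m / m| ≤ dg S +
            C₀ * (1 + ((C₁ * (1 + dg S) : ℕ) : ℝ)) * B := by
          refine (abs_sub_le _ _ _).trans (add_le_add h4 h3)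
        refine h6.trans ?_
        push_cast
        rw [hE]
        have h7 : (C₀ : ℝ) * (1 + C₁ * (1 + dg S)) * B ≤ (C₀ * (1 + C₁)) * (1 + dg S) * B := by
          refine mul_le_mul_of_nonneg_right ?_ (by positivity)
          rw [mul_assoc]
          refine mul_le_mul_of_nonneg_left ?_ (by positivity)
          nlinarith [hdg]
        linarith [h7, hdgB]
      rw [hsum, sub_zero]
      rw [abs_le] at h5 hcount ⊢
      constructor
      · linarith [h5.1, h5.2, hcount.1, hcount.2]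
      · linarith [h5.1, h5.2, hcount.1, hcount.2]
  have htot2 : |s * 𝒜.card - M| ≤ s * (3 * E) := by
    have h1 : ∑ i : Cl G, (if i = 1 then M else 0) = M := by simp
    have h2 : s * 𝒜.card - M = ∑ i : Cl G, (∑ Q ∈ 𝒬, χ Q i - (if i = 1 then M else 0)) := by
      rw [Finset.sum_sub_distrib, h1, ← htot1, Finset.sum_comm]
    rw [h2]
    refine (Finset.abs_sum_le_sum_abs _ _).trans ?_
    refine (Finset.sum_le_sum fun i _ => hcol i).trans ?_
    rw [Finset.sum_const, nsmul_eq_mul, Finset.card_univ, hcard]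
  have h8 : (𝒜.card : ℝ) - M * (1 / s) = (s * 𝒜.card - M) / s := by
    field_simp
  rw [h8, abs_div, abs_of_pos hs0, div_le_iff₀ hs0]
  linarith


/-! ### One step -/

theorem uT_insert {k : Type} [Field k] (nrs : k[X] → k[X]) {T : Finset k[X]} {Q : k[X]}
    (hQ : Q ∉ T) : uT nrs T = Function.update (uT nrs T) Q 1 ∧
    uT nrs (insert Q T) = Function.update (uT nrs T) Q (nrs Q) := by
  constructor
  · rw [eq_comm, Function.update_eq_self_iff]
    simp [uT, hQ]
  · funext P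
    by_cases hP : P = Q
    · subst hP
      simp [uT]
    · rw [Function.update_of_ne hP]
      simp [uT, hP]

theorem goodT_uT {k : Type} [Field k] {g : ℕ} {f : k[X][X]} {nrs : k[X] → k[X]} (hn : NRs nrs)
    {S : Finset k[X]} (hS : ∀ P ∈ S, P.Monic ∧ Irreducible P ∧ ¬ P ∣ dsc g f) (T : Finset k[X]) :
    GoodT g f S (uT nrs T) := by
  refine ⟨fun P hP => (hS P hP).1, fun P hP => (hS P hP).2.1, fun P hP => (hS P hP).2.2, ?_⟩
  intro P hP
  unfold uT
  split_ifs
  · intro h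
    apply hn P (hS P hP).2.1 0
    have : (0 : k[X]) ^ 2 - nrs P = - nrs P := by ring
    rw [this]
    exact (dvd_neg).2 h
  · exact fun h => (hS P hP).2.1.not_isUnit (isUnit_of_dvd_one h)

theorem nrs_ndvd {k : Type} [Field k] {nrs : k[X] → k[X]} (hn : NRs nrs) {Q : k[X]}
    (hQ : Irreducible Q) : ¬ Q ∣ nrs Q := by
  intro h
  apply hn Q hQ 0
  have : (0 : k[X]) ^ 2 - nrs Q = - nrs Q := by ring
  rw [this]
  exact (dvd_neg).2 h

section av

variable {k K L O : Type} [Field k] [Finite k] [Field K] [Algebra k[X] K]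
  [IsFractionRing k[X] K]
  [Field L] [Algebra K L] [Algebra k[X] L] [IsScalarTower k[X] K L] [CommRing O]
  [IsDedekindDomain O] [Algebra O L] [IsFractionRing O L] [Algebra k[X] O]
  [IsScalarTower k[X] O L] [IsIntegralClosure O k[X] L] {g N : ℕ} {r : k[X]} {f : k[X][X]} {θ : L}

theorem av_insert (nrs : k[X] → k[X]) (φ : ℕ → ℝ) {S : Finset k[X]} {Q : k[X]} (hQS : Q ∉ S) :
    av O K f θ nrs φ (insert Q S) = (1 / 2 : ℝ) ^ S.card * ∑ T ∈ S.powerset,
      (φ (ld (SelG O K f θ (insert Q S) (Function.update (uT nrs T) Q 1))) +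
        φ (ld (SelG O K f θ (insert Q S) (Function.update (uT nrs T) Q (nrs Q))))) / 2 := by
  unfold av
  rw [Finset.sum_powerset_insert hQS, Finset.card_insert_of_notMem hQS, pow_succ, mul_assoc,
    ← Finset.sum_add_distrib, Finset.mul_sum]
  congr 1
  refine Finset.sum_congr rfl fun T hT => ?_
  have hQT : Q ∉ T := fun h => hQS (Finset.mem_powerset.1 hT h)
  obtain ⟨h1, h2⟩ := uT_insert nrs hQT
  rw [h2, ← h1]
  ring

theorem av_insert_one (hEXS : P_EXS) (hF : Fm g N r f) (hFull : Full f) (hg : IsGen g K f θ)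
    {nrs : k[X] → k[X]} (hn : NRs nrs) (φ : ℕ → ℝ) {S : Finset k[X]}
    (hS : ∀ P ∈ S, P.Monic ∧ Irreducible P ∧ ¬ P ∣ dsc g f) {Q : k[X]} (hQm : Q.Monic)
    (hQi : Irreducible Q) (hQS : Q ∉ S) (hQd : ¬ Q ∣ dsc g f) (hQn : nr O Q = 1) :
    av O K f θ nrs φ (insert Q S) = av O K f θ nrs φ S := by
  rw [av_insert nrs φ hQS, av]
  congr 1
  refine Finset.sum_congr rfl fun T hT => ?_
  have hu := goodT_uT hn hS T
  rw [(hEXS k K L O g N r f θ hF hFull hg S _ hu Q hQm hQi hQS hQd 1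
      (fun h => hQi.not_isUnit (isUnit_of_dvd_one h))).1 hQn,
    (hEXS k K L O g N r f θ hF hFull hg S _ hu Q hQm hQi hQS hQd (nrs Q)
      (nrs_ndvd hn hQi)).1 hQn]
  ring

end av

theorem del0_pos (g : ℕ) : 0 < del0 g := by
  unfold del0
  positivity

theorem del1_nonneg (g : ℕ) : 0 ≤ del1 g := by
  unfold del1
  refine Finset.sum_nonneg fun e he => ?_
  obtain ⟨h1, h2⟩ := Finset.mem_Icc.1 he
  have h3 : (e : ℝ) ≤ g := by exact_mod_cast h2
  have h4 : (0 : ℝ) < 2 * g + 1 - 2 * e := by linarith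
  have h5 : (0 : ℝ) ≤ e := by positivity
  positivity

theorem T_S1 (hKILL : P_KILL2) (hLAST : P_LAST2) (hEXS : P_EXS) (hPOW : P_POW) (hSTEP : P_STEP)
    (hREP : P_REP) (hGRP : P_GRP) : P_S1 := by
  intro k K L O _ _ _ _ _ _ _ _ _ _ _ _ _ _ _ _ g N r f θ hF hFull hg nrs hn
  refine ⟨fun φ S hS Q hQm hQi hQS hQd hQn =>
    av_insert_one hEXS hF hFull hg hn φ hS hQm hQi hQS hQd hQn, ?_⟩
  obtain ⟨C, hC⟩ := count_triv hKILL hSTEP hREP hGRP k K L O g N r f θ hF hFull hg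
  obtain ⟨C₂, hC₂⟩ := hLAST k g N r f hF hFull
  refine ⟨C₂ + 1 + 3 * C, ?_⟩
  intro φ hφ S hS m hm
  set B : ℝ := √((Nat.card k : ℝ) ^ m) with hB
  set P : ℝ := (Nat.card k : ℝ) ^ m / m with hP
  have hq : (1 : ℝ) ≤ Nat.card k := by
    have : 1 < Nat.card k := Finite.one_lt_card
    exact_mod_cast this.le
  have hB1 : 1 ≤ B := by
    rw [hB, Real.one_le_sqrt]
    exact one_le_pow₀ hq
  have hdg : (0 : ℝ) ≤ dg S := by positivity
  have hδ0 := del0_pos g
  have hδ1 := del1_nonneg g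
  have hδ : 0 < del0 g + del1 g := by linarith
  set 𝒬 := (irrD k m).filter (fun Q => nr O Q ≤ 2 ∧ Q ∉ S ∧ ¬ Q ∣ dsc g f) with h𝒬
  set bd : ℝ := ((C₂ + 1 + 3 * C : ℕ) : ℝ) * (1 + dg S) * B with hbd
  -- the number of primes of type one
  have hone : |(((irrD k m).filter fun Q => (¬ Q ∣ dsc g f ∧ nr O Q = 1) ∧ Q ∉ S).card : ℝ) -
      del0 g * P| ≤ (C₂ + 1) * (1 + dg S) * B := by
    have h1 := hC₂ K L O θ hg ∅ (fun _ => True) (by simp) m hm
    replace h1 : |(((irrD k m).filter fun Q => ¬ Q ∣ dsc g f ∧ nr O Q = 1).card : ℝ) -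
        del0 g * (1 / 2) ^ (∅ : Finset k[X]).card * (Nat.card k : ℝ) ^ m / m| ≤
        C₂ * (1 + dg (∅ : Finset k[X])) * B := by
      refine le_of_eq_of_le ?_ h1
      congr 4
      ext Q
      simp
    have e2 : del0 g * (1 / 2) ^ (∅ : Finset k[X]).card * (Nat.card k : ℝ) ^ m / m =
        del0 g * P := by
      rw [Finset.card_empty, pow_zero, mul_one, hP, mul_div_assoc]
    rw [e2] at h1
    have h2 := card_remove hm S ((irrD k m).filter fun Q => ¬ Q ∣ dsc g f ∧ nr O Q = 1)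
      (Finset.filter_subset _ _)
    rw [Finset.filter_filter] at h2
    refine (abs_sub_le _ (((irrD k m).filter fun Q => ¬ Q ∣ dsc g f ∧ nr O Q = 1).card : ℝ)
      _).trans ?_
    have h3 : (dg (∅ : Finset k[X]) : ℝ) = 0 := by simp [dg]
    rw [h3] at h1
    have h4 : (C₂ : ℝ) * (1 + 0) * B ≤ C₂ * (1 + dg S) * B := by
      refine mul_le_mul_of_nonneg_right ?_ (by positivity)
      exact mul_le_mul_of_nonneg_left (by linarith) (by positivity)
    have h5 : (dg S : ℝ) ≤ (1 + dg S) * B := by nlinarith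
    linarith [h1, h2, h4, h5]
  -- one choice of the local classes
  have hT : ∀ T ∈ S.powerset, |∑ Q ∈ 𝒬,
      (φ (ld (SelG O K f θ (insert Q S) (Function.update (uT nrs T) Q 1))) +
        φ (ld (SelG O K f θ (insert Q S) (Function.update (uT nrs T) Q (nrs Q))))) / 2 -
      (del0 g + del1 g) * P * Mz (del1 g / (del0 g + del1 g)) φ
        (ld (SelG O K f θ S (uT nrs T)))| ≤ bd := by
    intro T _
    have hu := goodT_uT hn hS T
    set u := uT nrs T with hudef
    set G := SelG O K f θ S u with hG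
    obtain ⟨hGm, hGs⟩ := (hGRP k K L O g N r f θ hF hg).2 S u hu
    have hsz : sz G ≠ 0 := (hREP k K L O g N r f θ hF hg).2 S u hu hGm
    set d := ld G with hd
    have hszd : sz G = 2 ^ d := hPOW L G hGs hsz
    obtain ⟨hc2, hc3⟩ := hC S u hu m hm
    set n₁ : ℝ := (((irrD k m).filter fun Q => (¬ Q ∣ dsc g f ∧ nr O Q = 1) ∧ Q ∉ S).card : ℝ)
      with hn₁
    set n₂ : ℝ := (((irrD k m).filter fun Q => (¬ Q ∣ dsc g f ∧ nr O Q = 2) ∧ Q ∉ S).card : ℝ)
      with hn₂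
    set a : ℝ := (((irrD k m).filter fun Q => ((¬ Q ∣ dsc g f ∧ nr O Q = 2) ∧ Q ∉ S) ∧
          ∀ α ∈ G, Tr O Q (α : L)).card : ℝ) with ha
    -- the values
    have hval : ∀ Q ∈ 𝒬, (φ (ld (SelG O K f θ (insert Q S) (Function.update u Q 1))) +
        φ (ld (SelG O K f θ (insert Q S) (Function.update u Q (nrs Q))))) / 2 =
        if nr O Q = 1 then φ d else if (∀ α ∈ G, Tr O Q (α : L)) then φ (d + 1)
          else φ (d - 1) := by
      intro Q hQ
      rw [h𝒬, Finset.mem_filter, mem_irrD] at hQ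
      obtain ⟨⟨hQm, hQi, -⟩, hQn, hQS, hQd⟩ := hQ
      obtain ⟨hnr1, -⟩ := hSTEP k K L O g N r f θ hF hg S u hu hsz Q hQm hQi hQS
        hQd 1 (fun h => hQi.not_isUnit (isUnit_of_dvd_one h))
      have key : ∀ w : k[X], ¬ Q ∣ w →
          φ (ld (SelG O K f θ (insert Q S) (Function.update u Q w))) =
          if nr O Q = 1 then φ d else if (∀ α ∈ G, Tr O Q (α : L)) then φ (d + 1)
            else φ (d - 1) := by
        intro w hw
        obtain ⟨x1, x2, x3⟩ := hEXS k K L O g N r f θ hF hFull hg S u hu Q hQm hQi hQS hQd w hw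
        have hu' := goodT_insert hu hQm hQi hQS hQd hw
        obtain ⟨hGm', hGs'⟩ := (hGRP k K L O g N r f θ hF hg).2 _ _ hu'
        have hsz' := (hREP k K L O g N r f θ hF hg).2 _ _ hu' hGm'
        have hszd' := hPOW L _ hGs' hsz'
        split_ifs with h1 h2
        · rw [x1 h1]
        · have h3 := x2 (by omega) h2
          rw [hszd', hszd, ← pow_succ'] at h3
          rw [Nat.pow_right_injective (le_refl 2) h3]
        · have h3 := x3 (by omega) h2
          rw [hszd', hszd, ← pow_succ'] at h3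
          have h4 := Nat.pow_right_injective (le_refl 2) h3
          congr 1
          omega
      rw [key 1 (fun h => hQi.not_isUnit (isUnit_of_dvd_one h)), key (nrs Q) (nrs_ndvd hn hQi)]
      ring
    have hsum : ∑ Q ∈ 𝒬, (φ (ld (SelG O K f θ (insert Q S) (Function.update u Q 1))) +
        φ (ld (SelG O K f θ (insert Q S) (Function.update u Q (nrs Q))))) / 2 =
        n₁ * φ d + a * φ (d + 1) + (n₂ - a) * φ (d - 1) := by
      rw [Finset.sum_congr rfl hval, Finset.sum_ite, Finset.sum_ite, Finset.sum_const,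
        Finset.sum_const, Finset.sum_const, nsmul_eq_mul, nsmul_eq_mul, nsmul_eq_mul]
      have hnr : ∀ Q ∈ irrD k m, Q ∉ S → ¬ Q ∣ dsc g f → 1 ≤ nr O Q := by
        intro Q hQ hQS hQd
        rw [mem_irrD] at hQ
        exact (hSTEP k K L O g N r f θ hF hg S u hu hsz Q hQ.1 hQ.2.1 hQS
          hQd 1 (fun h => hQ.2.1.not_isUnit (isUnit_of_dvd_one h))).1
      have e1 : 𝒬.filter (fun Q => nr O Q = 1) =
          (irrD k m).filter fun Q => (¬ Q ∣ dsc g f ∧ nr O Q = 1) ∧ Q ∉ S := by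
        rw [h𝒬, Finset.filter_filter]
        refine Finset.filter_congr fun Q _ => ?_
        constructor
        · rintro ⟨⟨-, h2, h3⟩, h4⟩; exact ⟨⟨h3, h4⟩, h2⟩
        · rintro ⟨⟨h3, h4⟩, h2⟩; exact ⟨⟨by omega, h2, h3⟩, h4⟩
      have e2 : 𝒬.filter (fun Q => ¬ nr O Q = 1) =
          (irrD k m).filter fun Q => (¬ Q ∣ dsc g f ∧ nr O Q = 2) ∧ Q ∉ S := by
        rw [h𝒬, Finset.filter_filter]
        refine Finset.filter_congr fun Q hQ => ?_
        constructor
        · rintro ⟨⟨h1, h2, h3⟩, h4⟩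
          have := hnr Q hQ h2 h3
          exact ⟨⟨h3, by omega⟩, h2⟩
        · rintro ⟨⟨h3, h4⟩, h2⟩; exact ⟨⟨by omega, h2, h3⟩, by omega⟩
      rw [e1, e2, Finset.filter_filter]
      have e3 := Finset.card_filter_add_card_filter_not
        (s := (irrD k m).filter fun Q => (¬ Q ∣ dsc g f ∧ nr O Q = 2) ∧ Q ∉ S)
        (fun Q => ∀ α ∈ G, Tr O Q (α : L))
      rw [Finset.filter_filter] at e3
      have e4 : a + ((((irrD k m).filter fun Q => (¬ Q ∣ dsc g f ∧ nr O Q = 2) ∧ Q ∉ S).filter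
          fun Q => ¬ ∀ α ∈ G, Tr O Q (α : L)).card : ℝ) = n₂ := by
        rw [ha, hn₂]
        exact_mod_cast e3
      rw [← e4]
      ring
    rw [hsum]
    have hMz : (del0 g + del1 g) * P * Mz (del1 g / (del0 g + del1 g)) φ d =
        P * (del0 g * φ d + del1 g * ((1 / 2) ^ d * φ (d + 1) + (1 - (1 / 2) ^ d) * φ (d - 1))) := by
      unfold Mz Mk
      field_simp
      ring
    rw [hMz]
    have hM2 : del1 g * (Nat.card k : ℝ) ^ m / m = del1 g * P := by rw [hP, mul_div_assoc]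
    have hszr : (1 / (sz G : ℝ)) = (1 / 2) ^ d := by
      rw [hszd]; push_cast; rw [one_div, one_div, inv_pow]
    rw [hM2] at hc2 hc3
    rw [hszr] at hc3
    have e : n₁ * φ d + a * φ (d + 1) + (n₂ - a) * φ (d - 1) -
        P * (del0 g * φ d + del1 g * ((1 / 2) ^ d * φ (d + 1) + (1 - (1 / 2) ^ d) * φ (d - 1))) =
        (n₁ - del0 g * P) * φ d + (a - del1 g * P * (1 / 2) ^ d) * (φ (d + 1) - φ (d - 1)) +
          (n₂ - del1 g * P) * φ (d - 1) := by
      ring
    rw [e]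
    have b1 : |(n₁ - del0 g * P) * φ d| ≤ (C₂ + 1) * (1 + dg S) * B := by
      rw [abs_mul]
      calc _ ≤ |n₁ - del0 g * P| * 1 := mul_le_mul_of_nonneg_left (hφ d) (abs_nonneg _)
        _ ≤ _ := by rw [mul_one]; exact hone
    have b2 : |(a - del1 g * P * (1 / 2) ^ d) * (φ (d + 1) - φ (d - 1))| ≤
        (C * (1 + dg S) * B) * 2 := by
      rw [abs_mul]
      refine mul_le_mul hc3 ?_ (abs_nonneg _) (by positivity)
      calc |φ (d + 1) - φ (d - 1)| ≤ |φ (d + 1)| + |φ (d - 1)| := abs_sub _ _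
        _ ≤ 2 := by linarith [hφ (d + 1), hφ (d - 1)]
    have b3 : |(n₂ - del1 g * P) * φ (d - 1)| ≤ C * (1 + dg S) * B := by
      rw [abs_mul]
      calc _ ≤ |n₂ - del1 g * P| * 1 := mul_le_mul_of_nonneg_left (hφ _) (abs_nonneg _)
        _ ≤ _ := by rw [mul_one]; exact hc2
    calc _ ≤ |(n₁ - del0 g * P) * φ d| +
          |(a - del1 g * P * (1 / 2) ^ d) * (φ (d + 1) - φ (d - 1))| +
          |(n₂ - del1 g * P) * φ (d - 1)| := abs_add_three _ _ _
      _ ≤ (C₂ + 1) * (1 + dg S) * B + (C * (1 + dg S) * B) * 2 + C * (1 + dg S) * B :=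
          add_le_add (add_le_add b1 b2) b3
      _ = bd := by rw [hbd]; push_cast; ring
  -- the average
  have hsumQ : ∑ Q ∈ 𝒬, av O K f θ nrs φ (insert Q S) = (1 / 2 : ℝ) ^ S.card *
      ∑ T ∈ S.powerset, ∑ Q ∈ 𝒬,
        (φ (ld (SelG O K f θ (insert Q S) (Function.update (uT nrs T) Q 1))) +
        φ (ld (SelG O K f θ (insert Q S) (Function.update (uT nrs T) Q (nrs Q))))) / 2 := by
    rw [Finset.sum_comm, Finset.mul_sum]
    refine Finset.sum_congr rfl fun Q hQ => ?_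
    rw [h𝒬, Finset.mem_filter] at hQ
    exact av_insert nrs φ hQ.2.2.1
  have hP2 : (del0 g + del1 g) * (Nat.card k : ℝ) ^ m / m = (del0 g + del1 g) * P := by
    rw [hP, mul_div_assoc]
  rw [hsumQ, hP2]
  have hav : (del0 g + del1 g) * P * av O K f θ nrs (Mz (del1 g / (del0 g + del1 g)) φ) S =
      (1 / 2 : ℝ) ^ S.card * ∑ T ∈ S.powerset, (del0 g + del1 g) * P *
        Mz (del1 g / (del0 g + del1 g)) φ (ld (SelG O K f θ S (uT nrs T))) := by
    rw [av, ← Finset.mul_sum]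
    ring
  rw [hav, ← mul_sub, ← Finset.sum_sub_distrib, abs_mul, abs_of_nonneg (by positivity)]
  have hfin : |∑ T ∈ S.powerset, (∑ Q ∈ 𝒬,
      (φ (ld (SelG O K f θ (insert Q S) (Function.update (uT nrs T) Q 1))) +
        φ (ld (SelG O K f θ (insert Q S) (Function.update (uT nrs T) Q (nrs Q))))) / 2 -
      (del0 g + del1 g) * P * Mz (del1 g / (del0 g + del1 g)) φ
        (ld (SelG O K f θ S (uT nrs T))))| ≤ 2 ^ S.card * bd := by
    refine (Finset.abs_sum_le_sum_abs _ _).trans ?_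
    refine (Finset.sum_le_sum hT).trans ?_
    rw [Finset.sum_const, Finset.card_powerset, nsmul_eq_mul]
    push_cast
    exact le_refl _
  calc (1 / 2 : ℝ) ^ S.card * _ ≤ (1 / 2 : ℝ) ^ S.card * (2 ^ S.card * bd) :=
        mul_le_mul_of_nonneg_left hfin (by positivity)
    _ = bd := by
        rw [← mul_assoc, ← mul_pow]
        norm_num

end Run7.h957.PL
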