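import Pool.Agent.Run7.h286.PL.StmA
import Pool.Agent.N539.PP.Cls

/-! Piece AUX of project PRL (helper286). -/

set_option autoImplicit false
set_option linter.all false

open Polynomial IsDedekindDomain
open scoped Classical

namespace Run7.h957.PL

open Pool.Agent.N874.PP (Ov Ev Sq1)
open Pool.Agent.N352.PJ (IsGen Crd LocIm SelZero Fam GoodR Ht dsc)
open Run7.h875.TS (chi cd IsPC GSq irrD dg NRs uT sqf prD sqL sz Tr)
open Run7.h784.TG Run7.h286.PL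

theorem mem_irrD {k : Type} [Field k] [Finite k] {m : ℕ} {Q : k[X]} :
    Q ∈ irrD k m ↔ Q.Monic ∧ Irreducible Q ∧ Q.natDegree = m := by
  simp [irrD]

/-- Exponentials win. -/
theorem exists_large (q : ℕ) (hq : 2 ≤ q) (c₀ : ℝ) (hc : 0 < c₀) (C : ℝ) (n : ℕ) :
    ∃ m : ℕ, n < m ∧ 0 < m ∧ 0 < c₀ * (q : ℝ) ^ m / m - C * √((q : ℝ) ^ m) := by
  have hq0 : (0 : ℝ) < q := by positivity
  have hq1 : (1 : ℝ) < √(q : ℝ) := by
    rw [Real.lt_sqrt (by norm_num)]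
    norm_num
    omega
  set s := √(q : ℝ) with hs
  have hs0 : 0 < s := by linarith
  have hlim : Filter.Tendsto (fun m : ℕ => (m : ℝ) * (s⁻¹) ^ m) Filter.atTop (nhds 0) :=
    tendsto_self_mul_const_pow_of_lt_one (inv_nonneg.2 hs0.le) (inv_lt_one_of_one_lt₀ hq1)
  have hev := (hlim.const_mul (|C|)).eventually (gt_mem_nhds (show |C| * 0 < c₀ by simpa using hc))
  obtain ⟨m, hm, hm1, hm2⟩ := (hev.and ((Filter.eventually_gt_atTop n).and
    (Filter.eventually_gt_atTop 0))).exists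
  refine ⟨m, hm1, hm2, ?_⟩
  have hm0 : (0 : ℝ) < m := by exact_mod_cast hm2
  have hsm : √((q : ℝ) ^ m) = s ^ m := by
    rw [hs, Real.sqrt_eq_iff_mul_self_eq (by positivity) (by positivity), ← mul_pow,
      Real.mul_self_sqrt hq0.le]
  have hqm : (q : ℝ) ^ m = s ^ m * s ^ m := by
    rw [← mul_pow, Real.mul_self_sqrt hq0.le]
  have hsp : 0 < s ^ m := by positivity
  rw [hsm, hqm]
  have h1 : |C| * m < c₀ * s ^ m := by
    have h2 : |C| * (m * (s⁻¹) ^ m) * s ^ m < c₀ * s ^ m := by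
      exact mul_lt_mul_of_pos_right hm hsp
    have h3 : |C| * (m * (s⁻¹) ^ m) * s ^ m = |C| * m := by
      rw [inv_pow]
      field_simp
    rwa [h3] at h2
  have h4 : C * s ^ m ≤ |C| * s ^ m := mul_le_mul_of_nonneg_right (le_abs_self C) hsp.le
  have h5 : |C| * s ^ m < c₀ * (s ^ m * s ^ m) / m := by
    rw [lt_div_iff₀ hm0]
    nlinarith
  linarith

theorem T_AUX (hKILL : P_KILL) (hREP : P_REP) : P_AUX := by
  intro k K L O _ _ _ _ _ _ _ _ _ _ _ _ _ _ _ _ g N r f θ hF hFull hg S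
  obtain ⟨C₁, hC₁⟩ := (hREP k K L O g N r f θ hF hg).1
  obtain ⟨c₀, C₀, hc₀, hK⟩ := hKILL k g N r f hF hFull
  obtain ⟨m, hm1, hm0, hm⟩ := exists_large (Nat.card k) Finite.one_lt_card c₀ hc₀
    (C₀ * (1 + (C₁ : ℝ))) (S.sup natDegree)
  refine ⟨(irrD k m).filter fun Q => ¬ Q ∣ dsc g f, ?_, ?_⟩
  · intro P hP
    rw [Finset.mem_filter, mem_irrD] at hP
    obtain ⟨⟨h1, h2, h3⟩, h4⟩ := hP
    refine ⟨h1, h2, h4, fun hPS => ?_⟩
    have := Finset.le_sup (f := natDegree) hPS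
    omega
  · intro α hα hTr
    by_contra hsq
    obtain ⟨ρ, z, hρ, hz, hdeg⟩ := hC₁ ∅ (fun _ => 1) ⟨by simp, by simp, by simp, by simp⟩ α
      ⟨hα.ne, hα.nsq, hα.ev, by simp⟩
    have hdeg' : ∀ i, (z i).natDegree ≤ C₁ := by
      intro i
      have := hdeg i
      simpa [dg] using this
    have h0 : α * ρ ^ 2 ≠ 0 := mul_ne_zero hα.ne (pow_ne_zero _ hρ)
    have h1 : IsSquare (Algebra.norm K (α * ρ ^ 2)) := by
      rw [map_mul, map_pow]
      exact hα.nsq.mul ⟨Algebra.norm K ρ, sq _⟩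
    have h2 : ¬ IsSquare (α * ρ ^ 2) := by
      rintro ⟨y, hy⟩
      apply hsq
      refine ⟨y / ρ, ?_⟩
      field_simp
      rw [hy, sq]
    have hk := hK K L O θ hg (α * ρ ^ 2) z C₁ h0 h1 h2 hz hdeg' m hm0
    have hpos : (0 : ℝ) < (((irrD k m).filter fun Q => ¬ Q ∣ dsc g f ∧ nr O Q = 2 ∧
        ¬ Tr O Q (α * ρ ^ 2)).card : ℝ) := lt_of_lt_of_le hm hk
    have hpos' : 0 < ((irrD k m).filter fun Q => ¬ Q ∣ dsc g f ∧ nr O Q = 2 ∧
        ¬ Tr O Q (α * ρ ^ 2)).card := by exact_mod_cast hpos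
    obtain ⟨Q, hQ⟩ := Finset.card_pos.1 hpos'
    rw [Finset.mem_filter] at hQ
    obtain ⟨hQ1, hQ2, -, hQ3⟩ := hQ
    apply hQ3
    intro 𝔓 h𝔓
    rw [Pool.Agent.N539.PP.sq1_mul_sq _ hρ]
    exact hTr Q (Finset.mem_filter.2 ⟨hQ1, hQ2⟩) 𝔓 h𝔓

end Run7.h957.PL
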