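import Pool.Agent.Run7.h358.PL.Iface

/-!
# Project PL (helper358): the piece LIN
-/

set_option autoImplicit false

namespace Pool.Agent.Run7.h957.PL.LIN

open Pool.Agent.Run7.h358.PL

variable {ι X : Type} [DecidableEq ι] [DecidableEq X]

theorem cnt (c : ι → X) (S : Finset ι) (k : ι) (hk : k ∈ S) (y : X) :
    (S.filter fun j => c j = y).card = ((S.erase k).filter fun j => c j = y).card +
      if c k = y then 1 else 0 := by
  conv_lhs => rw [← Finset.insert_erase hk]
  rw [Finset.filter_insert]
  split_ifs with h
  · rw [Finset.card_insert_of_notMem]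
    simp
  · simp

theorem main : S_LIN := by
  intro ι X _ _ _ bar c S hbar
  induction S using Finset.strongInduction with
  | H S ih =>
    intro hfix hcnt
    rcases S.eq_empty_or_nonempty with rfl | ⟨k, hk⟩
    · exact ⟨[], ⟨List.nodup_nil, fun j => by simp [supp]⟩, by simp⟩
    · have h1 : 0 < (S.filter fun j => c j = bar (c k)).card := by
        rw [← hcnt (c k)]
        exact Finset.card_pos.mpr ⟨k, Finset.mem_filter.mpr ⟨hk, rfl⟩⟩
      obtain ⟨k', hk'⟩ := Finset.card_pos.mp h1
      obtain ⟨hk'S, hck'⟩ := Finset.mem_filter.mp hk'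
      have hne : k' ≠ k := by
        rintro rfl
        exact hfix k' hk hck'.symm
      have hk'e : k' ∈ S.erase k := Finset.mem_erase.mpr ⟨hne, hk'S⟩
      have hsub : (S.erase k).erase k' ⊆ S :=
        (Finset.erase_subset _ _).trans (Finset.erase_subset _ _)
      have hss : (S.erase k).erase k' ⊂ S := by
        refine (Finset.ssubset_iff_of_subset hsub).mpr ⟨k, hk, ?_⟩
        simp
      have hinj : ∀ y z, bar y = bar z ↔ y = z := by
        intro y z
        refine ⟨fun h => ?_, fun h => by rw [h]⟩
        rw [← hbar y, h, hbar]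
      obtain ⟨l, hl, hlc⟩ := ih _ hss (fun j hj => hfix j (hsub hj)) (by
        intro y
        have e1 := hcnt y
        rw [cnt c S k hk y, cnt c (S.erase k) k' hk'e y, cnt c S k hk (bar y),
          cnt c (S.erase k) k' hk'e (bar y), hck'] at e1
        have e2 : (bar (c k) = bar y) ↔ c k = y := hinj _ _
        have e3 : (bar (c k) = y) ↔ c k = bar y := by
          rw [← hinj (bar (c k)) y, hbar]
        simp only [e2, e3] at e1
        omega)
      refine ⟨(k, k') :: l, ⟨?_, ?_⟩, ?_⟩
      · show (k :: k' :: supp l).Nodup
        refine List.nodup_cons.mpr ⟨?_, List.nodup_cons.mpr ⟨?_, hl.1⟩⟩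
        · rw [List.mem_cons, not_or]
          refine ⟨hne.symm, ?_⟩
          rw [hl.2]
          simp
        · rw [hl.2]
          simp
      · intro j
        show j ∈ k :: k' :: supp l ↔ j ∈ S
        rw [List.mem_cons, List.mem_cons, hl.2, Finset.mem_erase, Finset.mem_erase]
        by_cases h2 : j = k
        · simp [h2, hk]
        · by_cases h3 : j = k'
          · simp [h3, hk'S]
          · simp [h2, h3]
      · intro p hp
        rcases List.mem_cons.mp hp with rfl | hp
        · exact hck'
        · exact hlc p hp

end Pool.Agent.Run7.h957.PL.LIN
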