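import Pool.Agent.Run7.h358.PL.Iface

/-!
# Project PL (helper358): the piece REP
-/

set_option autoImplicit false

namespace Pool.Agent.Run7.h957.PL.REP

open Pool.Agent.Run7.h358.PL

variable {ι X : Type}

theorem prL_perm {l l' : List (ι × ι)} (h : l.Perm l') : (prL l : (ι → Fin 2) → ℂ) = prL l' := by
  funext a
  exact (h.map _).prod_eq

theorem supp_perm {l l' : List (ι × ι)} (h : l.Perm l') : (supp l).Perm (supp l') :=
  h.flatMap_right _

theorem mat_of_perm {S : Finset ι} {l l' : List (ι × ι)} (h : (supp l).Perm (supp l'))
    (hl : IsMat S l) : IsMat S l' :=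
  ⟨h.nodup_iff.mp hl.1, fun k => by rw [← h.mem_iff, hl.2]⟩

theorem prL_cons (p : ι × ι) (l : List (ι × ι)) (a : ι → Fin 2) :
    prL (p :: l) a = ep (a p.1) (a p.2) * prL l a := by
  unfold prL
  rw [List.map_cons, List.prod_cons]

theorem ep_id (x y z w : Fin 2) : ep x y * ep z w = ep x z * ep y w - ep x w * ep y z := by
  fin_cases x <;> fin_cases y <;> fin_cases z <;> fin_cases w <;> simp [ep]

theorem card_eq [DecidableEq ι] [DecidableEq X] (c : ι → X) (S : Finset ι) (l : List (ι × ι))
    (hl : IsMat S l) (x : X) : (S.filter fun k => c k = x).card =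
      (l.map fun p => ((if c p.1 = x then 1 else 0) + if c p.2 = x then 1 else 0 : ℕ)).sum := by
  have h1 : S = (supp l).toFinset := by
    ext k
    rw [List.mem_toFinset, hl.2]
  have h2 : (S.filter fun k => c k = x).card = (supp l).countP (fun k => c k = x) := by
    have h0 : (S.filter fun k => c k = x) = ((supp l).filter (fun k => c k = x)).toFinset := by
      rw [h1]
      ext k
      simp
    rw [h0, List.toFinset_card_of_nodup (hl.1.filter _), List.countP_eq_length_filter]
  rw [h2]
  clear h1 h2 hl
  induction l with
  | nil => rfl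
  | cons p l ih =>
    have h3 : supp (p :: l) = p.1 :: p.2 :: supp l := rfl
    rw [h3, List.countP_cons, List.countP_cons, ih, List.map_cons, List.sum_cons]
    simp only [decide_eq_true_eq]
    ring

theorem main : S_REP := by
  intro ι X _ _ _ bar c S l hbar
  obtain ⟨n, hn⟩ : ∃ n, n = l.countP (fun p => ¬ c p.2 = bar (c p.1)) := ⟨_, rfl⟩
  induction n using Nat.strong_induction_on generalizing l with
  | _ n ih =>
    intro hl hlc hcnt
    by_cases hbad : ∀ p ∈ l, c p.2 = bar (c p.1)
    · exact Submodule.subset_span ⟨l, hl, hbad, rfl⟩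
    · push Not at hbad
      obtain ⟨⟨k, k'⟩, hp, hpb⟩ := hbad
      simp only at hpb
      have hkk : c k' = c k := by
        rcases hlc _ hp with h | h
        · exact h
        · exact absurd h hpb
      obtain ⟨x, hx⟩ : ∃ x, x = c k := ⟨_, rfl⟩
      rw [← hx] at hpb hkk
      rw [hkk] at hpb
      -- the second bad pair
      obtain ⟨⟨m, m'⟩, hq, hm, hm'⟩ : ∃ q ∈ l, c q.1 = bar x ∧ c q.2 = bar x := by
        by_contra hno
        push Not at hno
        have e1 := hcnt x
        rw [card_eq c S l hl, card_eq c S l hl] at e1
        refine absurd e1.symm (ne_of_lt (List.sum_lt_sum _ _ ?_ ⟨_, hp, ?_⟩))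
        · intro p hpl
          rcases eq_or_ne (c p.1) (bar x) with h1 | h1
          · rcases hlc p hpl with h2 | h2
            · exact absurd (h2.trans h1) (hno p hpl h1)
            · rw [h1, hbar] at h2
              rw [h1, h2, if_pos rfl, if_neg hpb, if_neg hpb.symm, if_pos rfl]
          · rcases eq_or_ne (c p.2) (bar x) with h2 | h2
            · rcases hlc p hpl with h3 | h3
              · exact absurd (h3.symm.trans h2) h1
              · have h4 : c p.1 = x := by
                  rw [← hbar (c p.1), ← h3, h2, hbar]
                rw [h2, h4, if_neg hpb, if_pos rfl, if_pos rfl, if_neg hpb.symm]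
            · rw [if_neg h1, if_neg h2]
              exact Nat.zero_le _
        · simp only
          rw [hkk, ← hx, if_neg hpb, if_pos rfl]
          norm_num
      simp only at hm hm'
      have hne : ((m, m') : ι × ι) ≠ (k, k') := by
        intro h
        rw [Prod.mk.injEq] at h
        rw [h.1, ← hx] at hm
        exact hpb hm
      obtain ⟨l₀, hl₀⟩ : ∃ l₀, l₀ = (l.erase (k, k')).erase (m, m') := ⟨_, rfl⟩
      have hperm : l.Perm ((k, k') :: (m, m') :: l₀) := by
        rw [hl₀]
        exact (List.perm_cons_erase hp).trans ((List.perm_cons_erase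
          ((List.mem_erase_of_ne hne).mpr hq)).cons _)
      have hmem : ∀ p ∈ l₀, p ∈ l := fun p hp' =>
        hperm.mem_iff.mpr (List.mem_cons_of_mem _ (List.mem_cons_of_mem _ hp'))
      have hb0 : l₀.countP (fun p => ¬ c p.2 = bar (c p.1)) < n := by
        rw [hn, hperm.countP_eq, List.countP_cons]
        have h5 : (decide (¬ c ((k, k') : ι × ι).2 = bar (c ((k, k') : ι × ι).1))) = true := by
          rw [decide_eq_true_eq]
          show ¬ c k' = bar (c k)
          rw [hkk, ← hx]
          exact hpb
        rw [if_pos h5, List.countP_cons]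
        omega
      have key : ∀ u u' v v' : ι, c u = x → c u' = bar x → c v = x → c v' = bar x →
          (supp ((k, k') :: (m, m') :: l₀)).Perm (supp ((u, u') :: (v, v') :: l₀)) →
          (prL ((u, u') :: (v, v') :: l₀) : (ι → Fin 2) → ℂ) ∈
            Submodule.span ℂ {G : (ι → Fin 2) → ℂ |
              ∃ l' : List (ι × ι), IsMat S l' ∧ (∀ p ∈ l', c p.2 = bar (c p.1)) ∧ G = prL l'} := by
        intro u u' v v' hu hu' hv hv' hpm
        refine ih _ ?_ _ rfl (mat_of_perm ((supp_perm hperm).trans hpm) hl) ?_ hcnt
        · rw [List.countP_cons_of_neg, List.countP_cons_of_neg]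
          · exact hb0
          · simp [hv, hv']
          · simp [hu, hu']
        · intro p hp'
          rcases List.mem_cons.mp hp' with rfl | hp'
          · right
            show c u' = bar (c u)
            rw [hu, hu']
          · rcases List.mem_cons.mp hp' with rfl | hp'
            · right
              show c v' = bar (c v)
              rw [hv, hv']
            · exact hlc p (hmem p hp')
      have hfin : (prL l : (ι → Fin 2) → ℂ) = prL ((k, m) :: (k', m') :: l₀) -
          prL ((k, m') :: (k', m) :: l₀) := by
        rw [prL_perm hperm]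
        funext a
        simp only [Pi.sub_apply, prL_cons]
        have h6 := ep_id (a k) (a k') (a m) (a m')
        linear_combination prL l₀ a * h6
      rw [hfin]
      refine Submodule.sub_mem _ (key k m k' m' hx.symm hm hkk hm' ?_)
        (key k m' k' m hx.symm hm' hkk hm ?_)
      · show (k :: k' :: m :: m' :: supp l₀).Perm (k :: m :: k' :: m' :: supp l₀)
        exact (List.Perm.swap _ _ _).cons _
      · show (k :: k' :: m :: m' :: supp l₀).Perm (k :: m' :: k' :: m :: supp l₀)
        refine List.Perm.cons _ ?_
        have h7 : (k' :: m :: m' :: supp l₀).Perm (k' :: m' :: m :: supp l₀) :=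
          (List.Perm.swap _ _ _).cons _
        exact h7.trans (List.Perm.swap _ _ _)

end Pool.Agent.Run7.h957.PL.REP
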